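import Mathlib

namespace Pool.Agent.Results.MP_01d095_an.SumIndex

open Set Metric

universe u v

/-- numerical radius -/
noncomputable def numRad {X : Type u} [NormedAddCommGroup X] [NormedSpace ℝ X]
    (T : X →L[ℝ] X) : ℝ :=
  sSup {r | ∃ (x : X) (f : X →L[ℝ] ℝ), ‖x‖ = 1 ∧ ‖f‖ = 1 ∧ f x = 1 ∧ r = |f (T x)|}

/-- the constants whose maximum is the second numerical index -/
def K (X : Type u) [NormedAddCommGroup X] [NormedSpace ℝ X] : Set ℝ :=
  {k | 0 ≤ k ∧ ∀ T : X →L[ℝ] X, k * infDist T {S : X →L[ℝ] X | numRad S = 0} ≤ numRad T}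

section
variable {X : Type u} [NormedAddCommGroup X] [NormedSpace ℝ X]

theorem le_numRad (T : X →L[ℝ] X) (x : X) (f : X →L[ℝ] ℝ) (hx : ‖x‖ = 1) (hf : ‖f‖ = 1)
    (h : f x = 1) : |f (T x)| ≤ numRad T := by
  refine le_csSup ⟨‖T‖, ?_⟩ ⟨x, f, hx, hf, h, rfl⟩
  rintro _ ⟨x, f, hx, hf, -, rfl⟩
  have a := f.le_opNorm (T x)
  have b := T.le_opNorm x
  rw [hf, one_mul, Real.norm_eq_abs] at a
  rw [hx, mul_one] at b
  exact a.trans b

theorem numRad_le (T : X →L[ℝ] X) (c : ℝ) (c0 : 0 ≤ c)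
    (h : ∀ (x : X) (f : X →L[ℝ] ℝ), ‖x‖ = 1 → ‖f‖ = 1 → f x = 1 → |f (T x)| ≤ c) :
    numRad T ≤ c := by
  refine Real.sSup_le ?_ c0
  rintro _ ⟨x, f, hx, hf, h1, rfl⟩
  exact h x f hx hf h1

theorem numRad_nonneg (T : X →L[ℝ] X) : 0 ≤ numRad T := by
  refine Real.sSup_nonneg ?_
  rintro _ ⟨x, f, -, -, -, rfl⟩
  exact abs_nonneg _

theorem zero_mem : (0 : X →L[ℝ] X) ∈ {S : X →L[ℝ] X | numRad S = 0} :=
  le_antisymm (numRad_le _ _ le_rfl fun x f _ _ _ => by simp) (numRad_nonneg _)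

theorem K_greatest [Nontrivial X] : IsGreatest (K X) (sSup (K X)) := by
  have hb : BddAbove (K X) := by
    refine ⟨1, fun k hk => ?_⟩
    obtain ⟨x, hx⟩ := exists_norm_eq X zero_le_one
    obtain ⟨f, hf, hfx⟩ := exists_dual_vector ℝ x (by simp [hx])
    have hfx' : f x = 1 := by simpa [hx] using hfx
    have h1 : 1 ≤ infDist (1 : X →L[ℝ] X) {S : X →L[ℝ] X | numRad S = 0} := by
      refine (le_infDist ⟨0, zero_mem⟩).2 fun S hS => ?_
      have a := le_numRad S x f hx hf hfx'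
      rw [show numRad S = 0 from hS, abs_nonpos_iff] at a
      have b := f.le_opNorm (((1 : X →L[ℝ] X) - S) x)
      have c := ((1 : X →L[ℝ] X) - S).le_opNorm x
      rw [hx, mul_one] at c
      rw [hf, one_mul] at b
      have d : f (((1 : X →L[ℝ] X) - S) x) = 1 := by simp [a, hfx']
      rw [d, norm_one] at b
      rw [dist_eq_norm]
      exact b.trans c
    have h2 : numRad (1 : X →L[ℝ] X) ≤ 1 :=
      numRad_le _ _ zero_le_one fun y g _ _ h => by simp [h]
    have h3 := hk.2 1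
    nlinarith [hk.1]
  have hc : IsClosed (K X) := by
    have : K X = Ici 0 ∩ ⋂ T : X →L[ℝ] X,
        {k | k * infDist T {S : X →L[ℝ] X | numRad S = 0} ≤ numRad T} := by
      ext k; simp [K]
    rw [this]
    exact isClosed_Ici.inter (isClosed_iInter fun T => isClosed_le (by fun_prop) continuous_const)
  have hn : (K X).Nonempty := ⟨0, le_rfl, fun T => by simpa using numRad_nonneg T⟩
  exact ⟨hc.csSup_mem hn hb, fun k hk => le_csSup hb hk⟩

variable {Y : Type v} [NormedAddCommGroup Y] [NormedSpace ℝ Y]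

theorem K_sub (J : Y →L[ℝ] X) (P : X →L[ℝ] Y) (hJ : ∀ y, ‖J y‖ = ‖y‖) (hP : ∀ x, ‖P x‖ ≤ ‖x‖)
    (hPJ : ∀ y, P (J y) = y)
    (hA : ∀ x y, ‖y‖ ≤ ‖P x‖ → ‖x - J (P x) + J y‖ ≤ ‖x‖) : K X ⊆ K Y := by
  rintro k ⟨k0, hk⟩
  refine ⟨k0, fun T => ?_⟩
  have h1 : infDist T {S : Y →L[ℝ] Y | numRad S = 0} ≤
      infDist (J ∘L T ∘L P) {S : X →L[ℝ] X | numRad S = 0} := by
    refine (le_infDist ⟨0, zero_mem⟩).2 fun S hS => ?_
    have hm : P ∘L S ∘L J ∈ {S : Y →L[ℝ] Y | numRad S = 0} := by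
      refine le_antisymm (numRad_le _ _ le_rfl fun y f hy hf h => ?_) (numRad_nonneg _)
      have e : (f ∘L P) (J y) = 1 := by simp [hPJ, h]
      have n : ‖f ∘L P‖ = 1 := by
        refine le_antisymm (ContinuousLinearMap.opNorm_le_bound _ zero_le_one fun z => ?_) ?_
        · have := f.le_opNorm (P z)
          rw [hf] at this
          exact this.trans (by simpa using hP z)
        · have := (f ∘L P).le_opNorm (J y)
          rwa [e, hJ, hy, norm_one, mul_one] at this
      have := le_numRad S (J y) (f ∘L P) (by rw [hJ, hy]) n e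
      rw [show numRad S = 0 from hS] at this
      exact this
    refine (infDist_le_dist_of_mem hm).trans ?_
    rw [dist_eq_norm, dist_eq_norm]
    refine ContinuousLinearMap.opNorm_le_bound _ (norm_nonneg _) fun y => ?_
    have e : (T - P ∘L S ∘L J) y = P ((J ∘L T ∘L P - S) (J y)) := by simp [hPJ]
    rw [e, ← hJ y]
    exact (hP _).trans (ContinuousLinearMap.le_opNorm _ _)
  have h2 : numRad (J ∘L T ∘L P) ≤ numRad T := by
    refine numRad_le _ _ (numRad_nonneg _) fun x f hx hf h => ?_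
    have v0 := numRad_nonneg T
    show |(f ∘L J) (T (P x))| ≤ _
    have gle : ‖f ∘L J‖ ≤ 1 := ContinuousLinearMap.opNorm_le_bound _ zero_le_one fun z => by
      have := f.le_opNorm (J z)
      rwa [hf, hJ] at this
    have yle : ‖P x‖ ≤ 1 := hx ▸ hP x
    have key : ∀ y, ‖y‖ ≤ ‖P x‖ → (f ∘L J) y ≤ (f ∘L J) (P x) := fun y hy => by
      have a := f.le_opNorm (x - J (P x) + J y)
      have b := hA x y hy
      rw [hf, one_mul, Real.norm_eq_abs] at a
      have c := (le_abs_self _).trans (a.trans (b.trans hx.le))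
      rw [map_add, map_sub, h] at c
      show f (J y) ≤ f (J (P x))
      linarith
    generalize f ∘L J = g at *
    generalize P x = y at *
    by_cases hy : y = 0
    · simpa [hy] using v0
    by_cases hg : g = 0
    · simpa [hg] using v0
    have y0 : 0 < ‖y‖ := norm_pos_iff.2 hy
    have g0 : 0 < ‖g‖ := norm_pos_iff.2 hg
    have e : g y = ‖g‖ * ‖y‖ := by
      refine le_antisymm ((le_abs_self _).trans (g.le_opNorm y)) ?_
      rw [← le_div_iff₀ y0]
      have gy0 : 0 ≤ g y := by simpa using key 0 (by simp)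
      refine ContinuousLinearMap.opNorm_le_of_unit_norm (by positivity) fun z hz => ?_
      rw [le_div_iff₀ y0, Real.norm_eq_abs, ← abs_of_pos y0, ← abs_mul, abs_le]
      have a := key (‖y‖ • z) (by simp [norm_smul, hz])
      have b := key (-(‖y‖ • z)) (by simp [norm_smul, hz])
      simp only [map_smul, map_neg, smul_eq_mul] at a b
      constructor <;> nlinarith
    have a := le_numRad T (‖y‖⁻¹ • y) (‖g‖⁻¹ • g) (norm_smul_inv_norm hy) (norm_smul_inv_norm hg)
      (by simp only [smul_apply, map_smul, smul_eq_mul, e]; field_simp)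
    simp only [smul_apply, map_smul, smul_eq_mul, abs_mul, abs_inv,
      abs_norm] at a
    rw [inv_mul_le_iff₀ y0, inv_mul_le_iff₀ g0] at a
    refine a.trans ?_
    calc ‖g‖ * (‖y‖ * numRad T) ≤ 1 * (1 * numRad T) := by gcongr
      _ = _ := by ring
  exact (mul_le_mul_of_nonneg_left h1 k0).trans ((hk _).trans h2)

end

theorem result (Y : Type u) (W : Type v) [NormedAddCommGroup Y] [NormedSpace ℝ Y] [CompleteSpace Y]
    [Nontrivial Y] [NormedAddCommGroup W] [NormedSpace ℝ W] [CompleteSpace W] [Nontrivial W] :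
    ∃ a b c : ℝ, IsGreatest (K (WithLp 2 (Y × W))) a ∧ IsGreatest (K Y) b ∧ IsGreatest (K W) c ∧
      a ≤ min b c := by
  have hn : ∀ x : WithLp 2 (Y × W), ‖x‖ = √(‖x.fst‖ ^ 2 + ‖x.snd‖ ^ 2) := fun x =>
    WithLp.prod_norm_eq_of_L2 x
  let e := WithLp.prodContinuousLinearEquiv 2 ℝ Y W
  have : Nontrivial (WithLp 2 (Y × W)) := e.toEquiv.nontrivial
  refine ⟨_, _, _, K_greatest, K_greatest, K_greatest, le_min ?_ ?_⟩
  · refine K_greatest.2 (K_sub (e.symm.toContinuousLinearMap ∘L ContinuousLinearMap.inl ℝ Y W)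
      (ContinuousLinearMap.fst ℝ Y W ∘L e.toContinuousLinearMap) (fun y => ?_) (fun x => ?_)
      (fun y => rfl) (fun x y h => ?_) K_greatest.1)
    · rw [hn]; simp [e]
    · exact WithLp.norm_fst_le _ x
    · rw [hn, hn]
      refine Real.sqrt_le_sqrt ?_
      have h' : ‖y‖ ≤ ‖x.fst‖ := h
      simp [e]
      gcongr
  · refine K_greatest.2 (K_sub (e.symm.toContinuousLinearMap ∘L ContinuousLinearMap.inr ℝ Y W)
      (ContinuousLinearMap.snd ℝ Y W ∘L e.toContinuousLinearMap) (fun y => ?_) (fun x => ?_)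
      (fun y => rfl) (fun x y h => ?_) K_greatest.1)
    · rw [hn]; simp [e]
    · exact WithLp.norm_snd_le _ x
    · rw [hn, hn]
      refine Real.sqrt_le_sqrt ?_
      have h' : ‖y‖ ≤ ‖x.snd‖ := h
      simp [e]
      gcongr

end Pool.Agent.Results.MP_01d095_an.SumIndex
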